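import Pool.Agent.N582.TDHard

/-!
# Deciding whether the total and the sub-total domination number agree is NP-hard

The reduction is from exact cover by 3-sets: a graph with a vertex for every triple, a centre joined
to all the triples, and `t` copies of every element (`t` the number of the triples), joined to the
triples containing it. For an instance with `3 q` elements the sub-total domination number is `q + 1`,
and a total dominating set of that size consists of the centre and an exact cover.
-/

set_option autoImplicit false

namespace Pool.Agent.Results.MP_bfbf95_lc.NPHard

open Pool.Agent.NPC Pool.Agent.N582.TD

/-- **Deciding whether `γ_t(G) = sub_t(G)`, for graphs without isolated vertices given by adjacency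
lists, is NP-hard under polynomial-time many-one reductions.** -/
theorem result : NPHardP TDSEq := npHard

end Pool.Agent.Results.MP_bfbf95_lc.NPHard
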